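import Mathlib

/-!
# Generic ideals in the square-free algebra

The formula for the Hilbert series of the quotient of the square-free algebra
`K[x_1, ..., x_n] / (x_1 ^ 2, ..., x_n ^ 2)` by a generic ideal fails for two linear forms, in every
characteristic, for all odd `n ≥ 7` and all even `n ≥ 14`.

Proof. Let `ℓ = ∑ a_i x_i` and `m = ∑ b_i x_i` be linear forms with `a_i ≠ 0` and with the
`t_i = b_i / a_i` pairwise different, and let `U` be a set of `2 s + 1` indices. For `S ⊆ U` with
`s` elements put `c_S = ∏_{i ∈ S} μ_i ∏_{i ≠ j ∈ S} (t_i - t_j)`, where `μ_k a_k` is the inverse of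
`∏_{l ∈ U, l ≠ k} (t_k - t_l)`. Lagrange interpolation shows that the linear functional which takes
`∏_{i ∈ S} x_i` to `c_S` and all the other monomials to zero vanishes on the ideal `(ℓ, m)`. Hence
the quotient is not zero in degree `s`. For `n = 2 s + 1` with `s ≥ 3` and for `n = 2 s + 2` with
`s ≥ 6` the coefficient of `t ^ s` in `(1 + t) ^ n (1 - t) ^ 2` is not positive.
-/

set_option autoImplicit false

namespace Pool.Agent.Results.MP_3acc10_al.TwoLinearForms

open MvPolynomial Finset

universe u

section Definitions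

variable (K : Type u) [Field K] (n : ℕ)

/-- The ideal `(x_1 ^ 2, ..., x_n ^ 2)`. -/
noncomputable def squares : Ideal (MvPolynomial (Fin n) K) :=
  Ideal.span (Set.range fun i : Fin n => (X i : MvPolynomial (Fin n) K) ^ 2)

/-- The square-free algebra `K[x_1, ..., x_n] / (x_1 ^ 2, ..., x_n ^ 2)`. -/
abbrev SquareFree : Type u := MvPolynomial (Fin n) K ⧸ squares K n

/-- The homogeneous part of degree `j` of the square-free algebra. -/
noncomputable def degreePart (j : ℕ) : Submodule K (SquareFree K n) :=
  (homogeneousSubmodule (Fin n) K j).map (Ideal.Quotient.mkₐ K (squares K n)).toLinearMap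

/-- The value of the Hilbert function of the quotient of the square-free algebra by the ideal `I`:
the dimension of the image of the homogeneous part of degree `j`. -/
noncomputable def hilbert (I : Ideal (SquareFree K n)) (j : ℕ) : ℕ :=
  Module.finrank K ((degreePart K n j).map (Ideal.Quotient.mkₐ K I).toLinearMap)

variable {r : ℕ} (d : Fin r → ℕ)

/-- The index set of the coefficients of `r` forms of the degrees `d_1, ..., d_r`: the pairs of a
number `i` of a form and a square-free monomial of degree `d_i`. -/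
abbrev Coeffs : Type := Σ i : Fin r, {s : Finset (Fin n) // s.card = d i}

variable {n d} in
/-- The `i`-th form with the coefficients `c`. -/
noncomputable def form (c : Coeffs n d → K) (i : Fin r) : SquareFree K n :=
  ∑ s : {s : Finset (Fin n) // s.card = d i},
    c ⟨i, s⟩ • Ideal.Quotient.mk (squares K n) (∏ k ∈ s.1, X k)

/-- The coefficients of `(1 + t) ^ n ∏ (1 - t ^ d_i)`. -/
noncomputable def expected (j : ℕ) : ℤ :=
  (((1 + Polynomial.X) ^ n * ∏ i : Fin r, (1 - Polynomial.X ^ d i) : Polynomial ℤ)).coeff j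

/-- The truncation of a series before the first coefficient which is not positive. -/
noncomputable def trunc (a : ℕ → ℤ) (j : ℕ) : ℤ :=
  open Classical in if ∃ i ≤ j, a i ≤ 0 then 0 else a j

/-- The formula for generic ideals with generators of the degrees `d_1, ..., d_r`: for all the
coefficients in a non-empty Zariski open set the Hilbert series of the quotient of the square-free
algebra by the ideal generated by the forms is the truncation of `(1 + t) ^ n ∏ (1 - t ^ d_i)`. -/
def GenericFormula : Prop :=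
  ∃ G : MvPolynomial (Coeffs n d) K, G ≠ 0 ∧ ∀ c : Coeffs n d → K, MvPolynomial.eval c G ≠ 0 →
    ∀ j : ℕ, (hilbert K n (Ideal.span (Set.range (form K c))) j : ℤ) = trunc (expected n d) j

end Definitions

section Lagrange

variable {K : Type u} [Field K] {ι : Type*} [DecidableEq ι]

/-- Lagrange's identity. -/
theorem sum_nodalWeight (U : Finset ι) (t : ι → K) (ht : Set.InjOn t U) (P : Polynomial K)
    (hP : P.natDegree + 1 < U.card) : ∑ k ∈ U, Lagrange.nodalWeight U t k * P.eval (t k) = 0 := by
  classical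
  have hdeg : P.degree < U.card := by
    refine lt_of_le_of_lt Polynomial.degree_le_natDegree ?_
    exact_mod_cast (by omega : P.natDegree < U.card)
  have h1 := Lagrange.eq_interpolate ht hdeg
  have h2 : P.coeff (U.card - 1) = 0 := Polynomial.coeff_eq_zero_of_natDegree_lt (by omega)
  rw [h1, Lagrange.interpolate_apply, Polynomial.finsetSum_coeff] at h2
  rw [← h2]
  refine Finset.sum_congr rfl fun k hk => ?_
  have h3 : Lagrange.basis U t k = Polynomial.C (Lagrange.nodalWeight U t k) *
      Lagrange.nodal (U.erase k) t := by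
    rw [Lagrange.basis_eq_prod_sub_inv_mul_nodal_div hk, Lagrange.nodal_erase_eq_nodal_div hk]
  have h4 : (Lagrange.nodal (U.erase k) t).coeff (U.card - 1) = 1 := by
    have h5 : (Lagrange.nodal (U.erase k) t).natDegree = U.card - 1 := by
      rw [Lagrange.natDegree_nodal, Finset.card_erase_of_mem hk]
    have h6 := (Lagrange.nodal_monic (s := U.erase k) (v := t)).coeff_natDegree
    rwa [h5] at h6
  rw [h3, Polynomial.coeff_C_mul, Polynomial.coeff_C_mul, h4, mul_one, mul_comm]

end Lagrange

section Functional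

variable {K : Type u} [Field K] {n : ℕ} (s : ℕ) (U : Finset (Fin n)) (a t : Fin n → K)

/-- The weight of an index. -/
noncomputable def mu (k : Fin n) : K := (a k)⁻¹ * Lagrange.nodalWeight U t k

/-- The value of the functional on a square-free monomial. -/
noncomputable def cS (S : Finset (Fin n)) : K :=
  if S ⊆ U ∧ S.card = s then (∏ i ∈ S, mu U a t i) * ∏ i ∈ S, ∏ j ∈ S.erase i, (t i - t j) else 0

theorem cS_insert {T : Finset (Fin n)} {k : Fin n} (hk : k ∉ T) (hkU : k ∈ U) (hT : T ⊆ U)
    (hs : T.card + 1 = s) : cS s U a t (insert k T) =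
      ((∏ i ∈ T, mu U a t i) * ∏ i ∈ T, ∏ j ∈ T.erase i, (t i - t j)) * (-1) ^ T.card *
        ((a k)⁻¹ * (Lagrange.nodalWeight U t k * ∏ j ∈ T, (t k - t j) ^ 2)) := by
  rw [cS, if_pos ⟨Finset.insert_subset hkU hT, by rw [Finset.card_insert_of_notMem hk, hs]⟩]
  rw [Finset.prod_insert hk, Finset.prod_insert hk, Finset.erase_insert hk]
  have h1 : ∀ i ∈ T, ∏ j ∈ (insert k T).erase i, (t i - t j) =
      (t i - t k) * ∏ j ∈ T.erase i, (t i - t j) := by
    intro i hi
    have hik : k ≠ i := fun h => hk (h ▸ hi)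
    rw [Finset.erase_insert_of_ne hik, Finset.prod_insert (by simp [hk])]
  rw [Finset.prod_congr rfl h1, Finset.prod_mul_distrib]
  have h2 : ∏ i ∈ T, (t i - t k) = (-1) ^ T.card * ∏ i ∈ T, (t k - t i) := by
    rw [← Finset.prod_const, ← Finset.prod_mul_distrib]
    exact Finset.prod_congr rfl fun i _ => by ring
  rw [h2, mu, Finset.prod_pow]
  ring

/-- The functional on polynomials. -/
noncomputable def phi : MvPolynomial (Fin n) K →ₗ[K] K :=
  (basisMonomials (Fin n) K).constr K fun m : Fin n →₀ ℕ =>
    if ∀ i, m i ≤ 1 then cS s U a t m.support else 0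

theorem phi_monomial (m : Fin n →₀ ℕ) : phi s U a t (monomial m 1) =
    if ∀ i, m i ≤ 1 then cS s U a t m.support else 0 := by
  have h := (basisMonomials (Fin n) K).constr_basis K (fun m : Fin n →₀ ℕ =>
    if ∀ i, m i ≤ 1 then cS s U a t m.support else 0) m
  rw [coe_basisMonomials] at h
  exact h

theorem phi_squares (p : MvPolynomial (Fin n) K) (i : Fin n) : phi s U a t (p * X i ^ 2) = 0 := by
  induction p using MvPolynomial.induction_on' with
  | monomial m c =>
    have h1 : (monomial m c : MvPolynomial (Fin n) K) * X i ^ 2 =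
        c • monomial (m + Finsupp.single i 2) 1 := by
      rw [X_pow_eq_monomial, monomial_mul, smul_monomial]
      simp
    rw [h1, map_smul, phi_monomial, if_neg, smul_zero]
    intro h
    have := h i
    simp at this
  | add p q hp hq => rw [add_mul, map_add, hp, hq, add_zero]

/-- The sum over `U` of the `a k * f k * c (T ∪ k)` vanishes. -/
theorem sum_cS (ha : ∀ i, a i ≠ 0) (ht : Function.Injective t) (hU : U.card = 2 * s + 1)
    (ε : ℕ) (hε : ε ≤ 1) (T : Finset (Fin n)) (hT : T.card + 1 = s) (hTU : T ⊆ U) :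
    ∑ k ∈ U \ T, a k * t k ^ ε * cS s U a t (insert k T) = 0 := by
  have h1 : ∀ k ∈ U \ T, a k * t k ^ ε * cS s U a t (insert k T) =
      (((∏ i ∈ T, mu U a t i) * ∏ i ∈ T, ∏ j ∈ T.erase i, (t i - t j)) * (-1) ^ T.card) *
        (Lagrange.nodalWeight U t k *
          (Polynomial.X ^ ε * ∏ j ∈ T, (Polynomial.X - Polynomial.C (t j)) ^ 2).eval (t k)) := by
    intro k hk
    rw [Finset.mem_sdiff] at hk
    rw [cS_insert s U a t hk.2 hk.1 hTU hT, Polynomial.eval_mul, Polynomial.eval_prod]
    simp only [Polynomial.eval_pow, Polynomial.eval_sub, Polynomial.eval_X, Polynomial.eval_C]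
    field_simp [ha k]
  rw [Finset.sum_congr rfl h1, ← Finset.mul_sum]
  have h2 : ∑ k ∈ U \ T, Lagrange.nodalWeight U t k *
      (Polynomial.X ^ ε * ∏ j ∈ T, (Polynomial.X - Polynomial.C (t j)) ^ 2).eval (t k) =
      ∑ k ∈ U, Lagrange.nodalWeight U t k *
      (Polynomial.X ^ ε * ∏ j ∈ T, (Polynomial.X - Polynomial.C (t j)) ^ 2).eval (t k) := by
    refine Finset.sum_subset Finset.sdiff_subset fun k hk hk' => ?_
    have hkT : k ∈ T := by
      by_contra h
      exact hk' (Finset.mem_sdiff.2 ⟨hk, h⟩)
    rw [Polynomial.eval_mul, Polynomial.eval_prod,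
      Finset.prod_eq_zero (i := k) hkT (by simp), mul_zero, mul_zero]
  rw [h2, sum_nodalWeight U t ht.injOn, mul_zero]
  have h3 : (Polynomial.X ^ ε * ∏ j ∈ T, (Polynomial.X - Polynomial.C (t j)) ^ 2 :
      Polynomial K).natDegree ≤ ε + 2 * T.card := by
    refine Polynomial.natDegree_mul_le.trans (add_le_add (Polynomial.natDegree_X_pow_le ε) ?_)
    refine (Polynomial.natDegree_prod_le _ _).trans ?_
    rw [mul_comm, ← smul_eq_mul, ← Finset.sum_const]
    refine Finset.sum_le_sum fun j _ => ?_
    refine Polynomial.natDegree_pow_le.trans ?_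
    simp
  omega

theorem phi_form (ha : ∀ i, a i ≠ 0) (ht : Function.Injective t) (hU : U.card = 2 * s + 1)
    (ε : ℕ) (hε : ε ≤ 1) (p : MvPolynomial (Fin n) K) :
    phi s U a t (p * ∑ k, C (a k * t k ^ ε) * X k) = 0 := by
  classical
  induction p using MvPolynomial.induction_on' with
  | add p q hp hq => rw [add_mul, map_add, hp, hq, add_zero]
  | monomial m c =>
    have h1 : (monomial m c : MvPolynomial (Fin n) K) * ∑ k, C (a k * t k ^ ε) * X k =
        c • ∑ k, (a k * t k ^ ε) • monomial (m + Finsupp.single k 1) 1 := by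
      rw [Finset.mul_sum, Finset.smul_sum]
      refine Finset.sum_congr rfl fun k _ => ?_
      rw [X, C_mul_monomial, monomial_mul, smul_monomial, smul_monomial]
      simp
    rw [h1, map_smul, map_sum]
    simp only [map_smul, phi_monomial]
    suffices h : ∑ k, (a k * t k ^ ε) • (if ∀ i, (m + Finsupp.single k 1 : Fin n →₀ ℕ) i ≤ 1 then
        cS s U a t (m + Finsupp.single k 1 : Fin n →₀ ℕ).support else 0) = 0 by rw [h, smul_zero]
    by_cases hm : ∀ i, m i ≤ 1
    · by_cases hT : m.support.card + 1 = s ∧ m.support ⊆ U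
      · refine Eq.trans (Eq.symm ?_) (sum_cS s U a t ha ht hU ε hε m.support hT.1 hT.2)
        refine Finset.sum_subset_zero_on_sdiff (Finset.subset_univ _) (fun k hk => ?_)
          (fun k hk => ?_)
        · rw [Finset.mem_sdiff, Finset.mem_sdiff] at hk
          by_cases hkm : k ∈ m.support
          · rw [if_neg, smul_zero]
            intro h
            have h2 := h k
            rw [Finsupp.add_apply, Finsupp.single_eq_same] at h2
            exact (Finsupp.mem_support_iff.1 hkm) (by omega)
          · have hkU : k ∉ U := fun h => hk.2 ⟨h, hkm⟩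
            split_ifs with h
            · rw [cS, if_neg, smul_zero]
              rintro ⟨h3, -⟩
              exact hkU (h3 (by simp))
            · rw [smul_zero]
        · rw [Finset.mem_sdiff] at hk
          have hk2 : m k = 0 := Finsupp.notMem_support_iff.1 hk.2
          rw [if_pos]
          · have : (m + Finsupp.single k 1).support = insert k m.support := by
              ext i
              by_cases hik : i = k
              · subst hik
                simp
              · simp [hik]
            rw [this, smul_eq_mul]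
          · intro i
            by_cases hik : i = k
            · subst hik
              simp [hk2]
            · simpa [Finsupp.single_apply, Ne.symm hik] using hm i
      · refine Finset.sum_eq_zero fun k _ => ?_
        split_ifs with h
        · have hk2 : m k = 0 := by
            have h2 := h k
            rw [Finsupp.add_apply, Finsupp.single_eq_same] at h2
            omega
          have h4 : (m + Finsupp.single k 1).support = insert k m.support := by
            ext i
            by_cases hik : i = k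
            · subst hik
              simp
            · simp [hik]
          rw [cS, if_neg, smul_zero]
          rintro ⟨h5, h6⟩
          rw [h4] at h5 h6
          apply hT
          refine ⟨?_, (Finset.subset_insert _ _).trans h5⟩
          rw [Finset.card_insert_of_notMem (by simp [hk2])] at h6
          exact h6
        · rw [smul_zero]
    · refine Finset.sum_eq_zero fun k _ => ?_
      rw [if_neg, smul_zero]
      intro h
      apply hm
      intro i
      have := h i
      rw [Finsupp.add_apply] at this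
      omega

end Functional

section Quotient

variable {K : Type u} [Field K] {n : ℕ}

theorem one_le_finrank {V : Type u} [AddCommGroup V] [Module K V] (W : Submodule K V) (hW : W.FG)
    (y : V) (hy : y ∈ W) (h0 : y ≠ 0) : 1 ≤ Module.finrank K W := by
  have hfin : Module.Finite K W := Module.Finite.iff_fg.2 hW
  have : Nontrivial W := ⟨⟨⟨y, hy⟩, 0, fun h => h0 (congrArg Subtype.val h)⟩⟩
  exact Module.finrank_pos

theorem smul_mk (x : K) (q : MvPolynomial (Fin n) K) : x • Ideal.Quotient.mk (squares K n) q =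
    Ideal.Quotient.mk (squares K n) (C x * q) := by
  rw [C_mul']
  rfl

/-- A sum over the sets with one element. -/
theorem sum_card_one {M : Type*} [AddCommMonoid M] (f : {s : Finset (Fin n) // s.card = 1} → M) :
    ∑ s, f s = ∑ k, f ⟨{k}, by simp⟩ := by
  classical
  symm
  refine Finset.sum_bij (fun k _ => ⟨{k}, by simp⟩) (fun _ _ => Finset.mem_univ _) ?_ ?_ ?_
  · intro i _ j _ h
    simpa using congrArg Subtype.val h
  · rintro ⟨S, hS⟩ _
    obtain ⟨k, rfl⟩ := Finset.card_eq_one.1 hS
    exact ⟨k, Finset.mem_univ _, rfl⟩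
  · intro _ _
    rfl

theorem form_zero (c : Coeffs n ![1, 1] → K) : form K c 0 = Ideal.Quotient.mk (squares K n)
    (∑ k, C (c ⟨0, ⟨{k}, by simp⟩⟩) * X k) := by
  rw [form, map_sum]
  refine (sum_card_one _).trans (Finset.sum_congr rfl fun k _ => ?_)
  rw [Finset.prod_singleton]
  exact smul_mk _ _

theorem form_one (c : Coeffs n ![1, 1] → K) : form K c 1 = Ideal.Quotient.mk (squares K n)
    (∑ k, C (c ⟨1, ⟨{k}, by simp⟩⟩) * X k) := by
  rw [form, map_sum]
  refine (sum_card_one _).trans (Finset.sum_congr rfl fun k _ => ?_)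
  rw [Finset.prod_singleton]
  exact smul_mk _ _

theorem one_le_hilbert (s : ℕ) (U : Finset (Fin n)) (hU : U.card = 2 * s + 1)
    (c : Coeffs n ![1, 1] → K)
    (a b : Fin n → K) (ha : ∀ i, a i = c ⟨0, ⟨{i}, by simp⟩⟩)
    (hb : ∀ i, b i = c ⟨1, ⟨{i}, by simp⟩⟩) (ha0 : ∀ i, a i ≠ 0)
    (hab : ∀ i j, i ≠ j → a i * b j - a j * b i ≠ 0) :
    1 ≤ hilbert K n (Ideal.span (Set.range (form K c))) s := by
  classical
  set t : Fin n → K := fun i => b i / a i with ht
  have htb : ∀ i, a i * t i = b i := fun i => by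
    rw [ht]
    field_simp [ha0 i]
  have htinj : Function.Injective t := by
    intro i j hij
    by_contra h
    apply hab i j h
    have h1 := htb i
    have h2 := htb j
    rw [← h1, ← h2, hij]
    ring
  -- the functional on the square-free algebra
  have hker : (squares K n).restrictScalars K ≤ LinearMap.ker (phi s U a t) := by
    intro x hx
    rw [Submodule.restrictScalars_mem] at hx
    have hx' : ∀ p : MvPolynomial (Fin n) K, phi s U a t (p * x) = 0 := by
      refine Submodule.span_induction (p := fun x _ => ∀ p : MvPolynomial (Fin n) K,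
        phi s U a t (p * x) = 0) ?_ ?_ ?_ ?_ hx
      · rintro _ ⟨i, rfl⟩ p
        exact phi_squares s U a t p i
      · intro p
        simp
      · intro x y _ _ h1 h2 p
        rw [mul_add, map_add, h1, h2, add_zero]
      · intro q x _ h p
        rw [smul_eq_mul, ← mul_assoc]
        exact h _
    simpa using hx' 1
  let psi : SquareFree K n →ₗ[K] K :=
    ((squares K n).restrictScalars K).liftQ (phi s U a t) hker
  have hpsi : ∀ p : MvPolynomial (Fin n) K,
      psi (Ideal.Quotient.mk (squares K n) p) = phi s U a t p := fun p => rfl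
  set I := Ideal.span (Set.range (form K c)) with hI
  have hpsiI : ∀ x ∈ I, psi x = 0 := by
    intro x hx
    have hx' : ∀ q : SquareFree K n, psi (q * x) = 0 := by
      refine Submodule.span_induction (p := fun x _ => ∀ q : SquareFree K n,
        psi (q * x) = 0) ?_ ?_ ?_ ?_ hx
      · rintro _ ⟨i, rfl⟩ q
        obtain ⟨p, rfl⟩ := Ideal.Quotient.mk_surjective q
        fin_cases i
        · have h1 : form K c 0 = Ideal.Quotient.mk (squares K n)
              (∑ k, C (a k * t k ^ 0) * X k) := by
            rw [form_zero]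
            congr 1
            refine Finset.sum_congr rfl fun k _ => ?_
            rw [pow_zero, mul_one, ha]
          show psi (_ * form K c 0) = 0
          rw [h1, ← map_mul, hpsi]
          exact phi_form s U a t ha0 htinj hU 0 (by norm_num) p
        · have h1 : form K c 1 = Ideal.Quotient.mk (squares K n)
              (∑ k, C (a k * t k ^ 1) * X k) := by
            rw [form_one]
            congr 1
            refine Finset.sum_congr rfl fun k _ => ?_
            rw [pow_one, htb, hb]
          show psi (_ * form K c 1) = 0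
          rw [h1, ← map_mul, hpsi]
          exact phi_form s U a t ha0 htinj hU 1 le_rfl p
      · intro q
        simp
      · intro x y _ _ h1 h2 q
        rw [mul_add, map_add, h1, h2, add_zero]
      · intro q x _ h q'
        rw [smul_eq_mul, ← mul_assoc]
        exact h _
    simpa using hx' 1
  -- a monomial
  obtain ⟨S, hSU, hS⟩ := Finset.exists_subset_card_eq (show s ≤ U.card by omega)
  have hmon : (∏ k ∈ S, X k : MvPolynomial (Fin n) K) =
      monomial (∑ k ∈ S, Finsupp.single k 1) 1 := by
    rw [monomial_sum_one]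
    rfl
  have hval : ∀ i, (∑ k ∈ S, Finsupp.single k 1 : Fin n →₀ ℕ) i = if i ∈ S then 1 else 0 := by
    intro i
    rw [Finsupp.finsetSum_apply]
    simp [Finsupp.single_apply]
  have hsupp : (∑ k ∈ S, Finsupp.single k 1 : Fin n →₀ ℕ).support = S := by
    ext i
    rw [Finsupp.mem_support_iff, hval]
    simp
  have hphi : phi s U a t (∏ k ∈ S, X k) ≠ 0 := by
    rw [hmon, phi_monomial, if_pos, hsupp, cS, if_pos ⟨hSU, hS⟩]
    · refine mul_ne_zero (Finset.prod_ne_zero_iff.2 fun i hi => ?_)
        (Finset.prod_ne_zero_iff.2 fun i _ => Finset.prod_ne_zero_iff.2 fun j hj => ?_)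
      · exact mul_ne_zero (inv_ne_zero (ha0 i))
          (Lagrange.nodalWeight_ne_zero htinj.injOn (hSU hi))
      · exact sub_ne_zero.2 fun h => (Finset.ne_of_mem_erase hj) (htinj h).symm
    · intro i
      rw [hval]
      split_ifs <;> norm_num
  have hhom : (∏ k ∈ S, X k : MvPolynomial (Fin n) K) ∈ homogeneousSubmodule (Fin n) K s := by
    rw [mem_homogeneousSubmodule]
    have := IsHomogeneous.prod S (fun k => (X k : MvPolynomial (Fin n) K)) (fun _ => 1)
      (fun k _ => isHomogeneous_X K k)
    simpa [hS] using this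
  set y : SquareFree K n := Ideal.Quotient.mk (squares K n) (∏ k ∈ S, X k) with hy
  have hy1 : y ∈ degreePart K n s := ⟨_, hhom, rfl⟩
  have hy2 : Ideal.Quotient.mkₐ K I y ∈
      (degreePart K n s).map (Ideal.Quotient.mkₐ K I).toLinearMap := ⟨y, hy1, rfl⟩
  have hy3 : Ideal.Quotient.mkₐ K I y ≠ 0 := by
    intro h
    have h1 : y ∈ I := Ideal.Quotient.eq_zero_iff_mem.1 h
    exact hphi (by rw [← hpsi]; exact hpsiI _ h1)
  exact one_le_finrank _ (((homogeneousSubmodule_fg (Fin n) K s).map _).map _) _ hy2 hy3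

end Quotient

section Numbers

theorem expected_eq (n k : ℕ) : expected n ![1, 1] (k + 2) =
    (n.choose (k + 2) : ℤ) - 2 * n.choose (k + 1) + n.choose k := by
  have h1 : ((1 + Polynomial.X) ^ n * ∏ i : Fin 2, (1 - Polynomial.X ^ (![1, 1] : Fin 2 → ℕ) i) :
      Polynomial ℤ) = (1 + Polynomial.X) ^ n - Polynomial.C 2 * ((1 + Polynomial.X) ^ n * Polynomial.X) +
        (1 + Polynomial.X) ^ n * Polynomial.X * Polynomial.X := by
    simp only [Fin.prod_univ_two, Matrix.cons_val_zero, Matrix.cons_val_one, pow_one, map_ofNat]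
    ring
  rw [expected, h1, Polynomial.coeff_add, Polynomial.coeff_sub, Polynomial.coeff_C_mul,
    Polynomial.coeff_mul_X, Polynomial.coeff_mul_X, Polynomial.coeff_mul_X,
    Polynomial.coeff_one_add_X_pow, Polynomial.coeff_one_add_X_pow, Polynomial.coeff_one_add_X_pow]

theorem expected_nonpos (n k m : ℕ) (hn : n = 2 * (k + 2) + m) (hm : (m + 1) * (m + 2) ≤ 2 * (k + 2)) :
    expected n ![1, 1] (k + 2) ≤ 0 := by
  rw [expected_eq]
  have h1 : (n.choose (k + 1) : ℤ) * (k + 1) = n.choose k * (k + 4 + m) := by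
    have := Nat.choose_succ_right_eq n k
    rw [show n - k = k + 4 + m by omega] at this
    exact_mod_cast this
  have h2 : (n.choose (k + 2) : ℤ) * (k + 2) = n.choose (k + 1) * (k + 3 + m) := by
    have := Nat.choose_succ_right_eq n (k + 1)
    rw [show n - (k + 1) = k + 3 + m by omega] at this
    exact_mod_cast this
  have h3 : ((k : ℤ) + 1) * (k + 2) * ((n.choose (k + 2) : ℤ) - 2 * n.choose (k + 1) + n.choose k) =
      n.choose k * ((m + 1) * (m + 2) - 2 * (k + 2)) := by
    have h4 : ((k : ℤ) + 1) * (k + 2) * (n.choose (k + 2) : ℤ) =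
        n.choose k * (k + 4 + m) * (k + 3 + m) := by
      calc ((k : ℤ) + 1) * (k + 2) * (n.choose (k + 2) : ℤ) =
            (k + 1) * ((n.choose (k + 2) : ℤ) * (k + 2)) := by ring
        _ = ((n.choose (k + 1) : ℤ) * (k + 1)) * (k + 3 + m) := by rw [h2]; ring
        _ = n.choose k * (k + 4 + m) * (k + 3 + m) := by rw [h1]
    have h5 : ((k : ℤ) + 1) * (k + 2) * (n.choose (k + 1) : ℤ) =
        n.choose k * (k + 4 + m) * (k + 2) := by
      calc ((k : ℤ) + 1) * (k + 2) * (n.choose (k + 1) : ℤ) =
            ((n.choose (k + 1) : ℤ) * (k + 1)) * (k + 2) := by ring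
        _ = n.choose k * (k + 4 + m) * (k + 2) := by rw [h1]
    have h6 : ((k : ℤ) + 1) * (k + 2) * ((n.choose (k + 2) : ℤ) - 2 * n.choose (k + 1) +
        n.choose k) = ((k : ℤ) + 1) * (k + 2) * (n.choose (k + 2) : ℤ) -
        2 * (((k : ℤ) + 1) * (k + 2) * (n.choose (k + 1) : ℤ)) +
        ((k : ℤ) + 1) * (k + 2) * n.choose k := by ring
    rw [h6, h4, h5]
    ring
  have h7 : (n.choose k : ℤ) * ((m + 1) * (m + 2) - 2 * (k + 2)) ≤ 0 := by
    refine mul_nonpos_of_nonneg_of_nonpos (by positivity) ?_
    have : (((m + 1) * (m + 2) : ℕ) : ℤ) ≤ ((2 * (k + 2) : ℕ) : ℤ) := by exact_mod_cast hm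
    push_cast at this
    linarith
  rw [← h3] at h7
  by_contra h8
  push Not at h8
  have : 0 < ((k : ℤ) + 1) * (k + 2) * ((n.choose (k + 2) : ℤ) - 2 * n.choose (k + 1) + n.choose k) := by
    positivity
  linarith

theorem trunc_eq_zero (a : ℕ → ℤ) (j : ℕ) (h : a j ≤ 0) : trunc a j = 0 := by
  rw [trunc, if_pos ⟨j, le_rfl, h⟩]

end Numbers

section Generic

variable (K : Type u) [Field K] (n : ℕ)

/-- The polynomial that does not vanish at the generic pairs of linear forms. -/
noncomputable def gen : MvPolynomial (Coeffs n ![1, 1]) K :=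
  (∏ i : Fin n, X ⟨0, ⟨{i}, by simp⟩⟩) *
    ∏ p ∈ (Finset.univ : Finset (Fin n)).offDiag,
      (X ⟨0, ⟨{p.1}, by simp⟩⟩ * X ⟨1, ⟨{p.2}, by simp⟩⟩ -
        X ⟨0, ⟨{p.2}, by simp⟩⟩ * X ⟨1, ⟨{p.1}, by simp⟩⟩)

theorem gen_ne_zero : gen K n ≠ 0 := by
  classical
  refine mul_ne_zero (Finset.prod_ne_zero_iff.2 fun i _ => X_ne_zero _)
    (Finset.prod_ne_zero_iff.2 fun p hp => ?_)
  rw [Finset.mem_offDiag] at hp
  intro h
  have h1 := congrArg (MvPolynomial.eval (fun q : Coeffs n ![1, 1] =>
    if q.1 = 0 then (if q.2.1 = {p.1} then (1 : K) else 0)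
      else (if q.2.1 = {p.2} then (1 : K) else 0))) h
  simp [hp.2.2, Ne.symm hp.2.2] at h1

theorem main (m k : ℕ) (hn : n = 2 * (k + 2) + m) (hm1 : 1 ≤ m)
    (hm : (m + 1) * (m + 2) ≤ 2 * (k + 2)) (c : Coeffs n ![1, 1] → K)
    (hc : MvPolynomial.eval c (gen K n) ≠ 0) :
    1 ≤ hilbert K n (Ideal.span (Set.range (form K c))) (k + 2) ∧
      trunc (expected n ![1, 1]) (k + 2) = 0 := by
  classical
  refine ⟨?_, trunc_eq_zero _ _ (expected_nonpos n k m hn hm)⟩
  rw [gen, map_mul, map_prod, map_prod] at hc
  have hc1 := Finset.prod_ne_zero_iff.1 (left_ne_zero_of_mul hc)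
  have hc2 := Finset.prod_ne_zero_iff.1 (right_ne_zero_of_mul hc)
  obtain ⟨U, -, hU⟩ := Finset.exists_subset_card_eq
    (show 2 * (k + 2) + 1 ≤ (Finset.univ : Finset (Fin n)).card by rw [Finset.card_fin]; omega)
  refine one_le_hilbert (k + 2) U hU c (fun i => c ⟨0, ⟨{i}, by simp⟩⟩)
    (fun i => c ⟨1, ⟨{i}, by simp⟩⟩) (fun _ => rfl) (fun _ => rfl) (fun i => ?_) (fun i j hij => ?_)
  · have := hc1 i (Finset.mem_univ i)
    rwa [eval_X] at this
  · have := hc2 (i, j) (Finset.mem_offDiag.2 ⟨Finset.mem_univ _, Finset.mem_univ _, hij⟩)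
    rwa [map_sub, map_mul, map_mul, eval_X, eval_X, eval_X, eval_X] at this

theorem not_genericFormula [Infinite K] (m k : ℕ) (hn : n = 2 * (k + 2) + m) (hm1 : 1 ≤ m)
    (hm : (m + 1) * (m + 2) ≤ 2 * (k + 2)) : ¬ GenericFormula K n ![1, 1] := by
  rintro ⟨G, hG, h⟩
  have h1 : G * gen K n ≠ 0 := mul_ne_zero hG (gen_ne_zero K n)
  obtain ⟨c, hc⟩ : ∃ c, MvPolynomial.eval c (G * gen K n) ≠ 0 := by
    by_contra h2
    push Not at h2
    exact h1 (MvPolynomial.funext fun c => by rw [h2 c, map_zero])
  rw [map_mul] at hc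
  obtain ⟨h3, h4⟩ := main K n m k hn hm1 hm c (right_ne_zero_of_mul hc)
  have h5 := h c (left_ne_zero_of_mul hc) (k + 2)
  rw [h4] at h5
  omega

end Generic

/-- **The formula fails for two generic linear forms.** Let `K` be an infinite field. For every odd
`n ≥ 7` and every even `n ≥ 14` the quotient of the square-free algebra in `n` variables by two
generic linear forms is not zero in degree `⌊(n - 1) / 2⌋`, while the truncation of
`(1 + t) ^ n (1 - t) ^ 2` has the coefficient zero there. -/
theorem result (K : Type u) [Field K] [Infinite K] :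
    (∀ n : ℕ, (Odd n ∧ 7 ≤ n) ∨ 14 ≤ n → ¬ GenericFormula K n ![1, 1] ∧
      ∃ G : MvPolynomial (Coeffs n ![1, 1]) K, G ≠ 0 ∧
        ∀ c : Coeffs n ![1, 1] → K, MvPolynomial.eval c G ≠ 0 →
          1 ≤ hilbert K n (Ideal.span (Set.range (form K c))) ((n - 1) / 2) ∧
            trunc (expected n ![1, 1]) ((n - 1) / 2) = 0) ∧
    ¬ ∀ (n r : ℕ) (d : Fin r → ℕ), (∀ i, 0 < d i) → GenericFormula K n d := by
  have key : ∀ n : ℕ, (Odd n ∧ 7 ≤ n) ∨ 14 ≤ n → ∃ m k : ℕ, n = 2 * (k + 2) + m ∧ 1 ≤ m ∧
      (m + 1) * (m + 2) ≤ 2 * (k + 2) ∧ (n - 1) / 2 = k + 2 := by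
    intro n hn
    rcases Nat.even_or_odd' n with ⟨q, rfl | rfl⟩
    · obtain ⟨k, rfl⟩ : ∃ k, q = k + 7 := by
        refine ⟨q - 7, ?_⟩
        rcases hn with ⟨h1, h2⟩ | h
        · exact absurd h1 (by simp)
        · omega
      exact ⟨2, k + 4, by omega, by norm_num, by omega, by omega⟩
    · obtain ⟨k, rfl⟩ : ∃ k, q = k + 3 := ⟨q - 3, by rcases hn with ⟨h1, h2⟩ | h <;> omega⟩
      exact ⟨1, k + 1, by omega, le_rfl, by omega, by omega⟩
  refine ⟨fun n hn => ?_, fun h => ?_⟩
  · obtain ⟨m, k, h1, h2, h3, h4⟩ := key n hn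
    refine ⟨not_genericFormula K n m k h1 h2 h3, gen K n, gen_ne_zero K n, fun c hc => ?_⟩
    rw [h4]
    exact main K n m k h1 h2 h3 c hc
  · obtain ⟨m, k, h1, h2, h3, h4⟩ := key 7 (Or.inl ⟨by decide, le_rfl⟩)
    exact not_genericFormula K 7 m k h1 h2 h3 (h 7 2 ![1, 1] fun i => by fin_cases i <;> simp)

end Pool.Agent.Results.MP_3acc10_al.TwoLinearForms
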